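import Mathlib

/-!
# Permutations of the integers and homeomorphisms of the interval are not isomorphic under decomposition

By the Hales-Jewett theorem, whenever the multiplication graph of the group of permutations of the
integers is split into finitely many pieces, there are permutations `x, y, a`, where `a` has order
three and all three commute, such that the nine pairs `(x a ^ s, y a ^ t)` belong to one piece.  An
isomorphism of this piece with a subset of the multiplication graph of another group `H` gives an
element of order three of `H`.  The group of homeomorphisms of the interval has no such element.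
-/

set_option autoImplicit false

namespace Pool.Agent.Results.MP_0a04b1_lc.NotIsoDecomp

open Set

/-- `A` and `B` are product-isomorphic: some bijection of `E`, applied in all three coordinates, maps
`A` onto `B`. -/
def ProdIso {E : Type} (A B : Set (E × E × E)) : Prop :=
  ∃ f : E ≃ E, (fun t : E × E × E => (f t.1, f t.2.1, f t.2.2)) '' A = B

/-- `A` and `B` are product-isomorphic under decomposition. -/
def ProdIsoDecomp {E : Type} (A B : Set (E × E × E)) : Prop :=
  ∃ m : ℕ, 1 ≤ m ∧ ∃ P Q : Fin m → Set (E × E × E),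
    (∀ i j, i ≠ j → Disjoint (P i) (P j)) ∧ (∀ i j, i ≠ j → Disjoint (Q i) (Q j)) ∧
    (⋃ i, P i) = A ∧ (⋃ i, Q i) = B ∧ ∀ i, ProdIso (P i) (Q i)

/-- The representation on `E` of the group `G`, carried to `E` by the bijection `φ`: the graph of the
multiplication. -/
def Rep {E G : Type} [Group G] (φ : E ≃ G) : Set (E × E × E) :=
  {t | φ t.1 * φ t.2.1 = φ t.2.2}

/-- Every finite power of the group with three elements embeds in the group of permutations of the
integers. -/
theorem exists_embed (ι : Type) [Finite ι] :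
    ∃ e : Multiplicative (ι → ZMod 3) →* Equiv.Perm ℤ, Function.Injective e := by
  have hinj : Function.Injective (MulAction.toPermHom (Multiplicative (ι → ZMod 3))
      (Multiplicative (ι → ZMod 3))) := MulAction.toPerm_injective
  have : Countable (Multiplicative (ι → ZMod 3)) :=
    inferInstanceAs (Countable (ι → ZMod 3))
  obtain ⟨g, hg⟩ := exists_injective_nat (Multiplicative (ι → ZMod 3))
  let j : Multiplicative (ι → ZMod 3) ↪ ℤ := ⟨fun x => (g x : ℤ), fun x y h => hg (Int.ofNat_inj.1 h)⟩
  exact ⟨(Equiv.Perm.viaEmbeddingHom j).comp (MulAction.toPermHom _ _),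
    (Equiv.Perm.viaEmbeddingHom_injective j).comp hinj⟩

/-- The combinatorial core. -/
theorem exists_mono (m : ℕ) (c : Equiv.Perm ℤ → Equiv.Perm ℤ → Fin m) :
    ∃ (x y : ZMod 3 → Equiv.Perm ℤ) (z : ZMod 3 → Equiv.Perm ℤ) (k : Fin m),
      (∀ s t, x s * y t = z (s + t)) ∧ x 0 ≠ x 1 ∧ ∀ s t, c (x s) (y t) = k := by
  obtain ⟨ι, _, hι⟩ := Combinatorics.Line.exists_mono_in_high_dimension (ZMod 3 × ZMod 3) (Fin m)
  obtain ⟨e, he⟩ := exists_embed ι
  obtain ⟨l, k, hk⟩ := hι fun v => c (e (Multiplicative.ofAdd fun i => (v i).1))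
    (e (Multiplicative.ofAdd fun i => (v i).2))
  -- the coordinates of the line
  let X : ZMod 3 → ι → ZMod 3 := fun s i => (l (s, 0) i).1
  let Y : ZMod 3 → ι → ZMod 3 := fun t i => (l (0, t) i).2
  have hX : ∀ s t, (fun i => (l (s, t) i).1) = X s := by
    intro s t
    funext i
    cases h : l.idxFun i with
    | none =>
      simp only [X]
      rw [l.apply_none _ _ h, l.apply_none _ _ h]
    | some p =>
      simp only [X]
      rw [l.apply_some h, l.apply_some h]
  have hY : ∀ s t, (fun i => (l (s, t) i).2) = Y t := by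
    intro s t
    funext i
    cases h : l.idxFun i with
    | none =>
      simp only [Y]
      rw [l.apply_none _ _ h, l.apply_none _ _ h]
    | some p =>
      simp only [Y]
      rw [l.apply_some h, l.apply_some h]
  refine ⟨fun s => e (Multiplicative.ofAdd (X s)), fun t => e (Multiplicative.ofAdd (Y t)),
    fun r => e (Multiplicative.ofAdd (X r + Y 0)), k, ?_, ?_, ?_⟩
  · intro s t
    change e (Multiplicative.ofAdd (X s)) * e (Multiplicative.ofAdd (Y t)) =
      e (Multiplicative.ofAdd (X (s + t) + Y 0))
    rw [← map_mul, ← ofAdd_add]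
    congr 2
    funext i
    cases h : l.idxFun i with
    | none =>
      simp only [X, Y, Pi.add_apply]
      rw [l.apply_none _ _ h, l.apply_none _ _ h, l.apply_none _ _ h, l.apply_none _ _ h]
      simp
    | some p =>
      simp only [X, Y, Pi.add_apply]
      rw [l.apply_some h, l.apply_some h, l.apply_some h, l.apply_some h]
  · intro h
    have h1 : X 0 = X 1 := Multiplicative.ofAdd.injective (he h)
    obtain ⟨i, hi⟩ := l.proper
    have h2 : X 0 i = X 1 i := by rw [h1]
    simp only [X] at h2
    rw [l.apply_none _ _ hi, l.apply_none _ _ hi] at h2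
    exact absurd h2 (by decide)
  · intro s t
    have h1 := hk (s, t)
    simp only [hX, hY] at h1
    exact h1

/-- A piece isomorphism produces an element of order three. -/
theorem exists_order_three {H : Type} [Group H] (f : Equiv.Perm ℤ → H) (hf : Function.Injective f)
    (x y z : ZMod 3 → Equiv.Perm ℤ) (hx : x 0 ≠ x 1)
    (h : ∀ s t, f (x s) * f (y t) = f (z (s + t))) : ∃ u : H, u ^ 3 = 1 ∧ u ≠ 1 := by
  have e01 := h 0 1
  have e10 := h 1 0
  have e02 := h 0 2
  have e11 := h 1 1
  have e20 := h 2 0
  have e00 := h 0 0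
  have e12 := h 1 2
  have e21 := h 2 1
  have t1 : (0 : ZMod 3) + 1 = 1 := by decide
  have t2 : (1 : ZMod 3) + 0 = 1 := by decide
  have t3 : (0 : ZMod 3) + 2 = 2 := by decide
  have t4 : (1 : ZMod 3) + 1 = 2 := by decide
  have t5 : (2 : ZMod 3) + 0 = 2 := by decide
  have t6 : (0 : ZMod 3) + 0 = 0 := by decide
  have t7 : (1 : ZMod 3) + 2 = 0 := by decide
  have t8 : (2 : ZMod 3) + 1 = 0 := by decide
  rw [t1] at e01
  rw [t2] at e10
  rw [t3] at e02
  rw [t4] at e11
  rw [t5] at e20
  rw [t6] at e00
  rw [t7] at e12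
  rw [t8] at e21
  set p0 := f (x 0)
  set p1 := f (x 1)
  set p2 := f (x 2)
  set q0 := f (y 0)
  set q1 := f (y 1)
  set q2 := f (y 2)
  have a1 : p0⁻¹ * p1 = q1 * q0⁻¹ := by
    have : p0 * q1 = p1 * q0 := e01.trans e10.symm
    rw [eq_mul_inv_iff_mul_eq, mul_assoc, ← this]
    group
  have a2 : p1⁻¹ * p2 = q1 * q0⁻¹ := by
    have : p1 * q1 = p2 * q0 := e11.trans e20.symm
    rw [eq_mul_inv_iff_mul_eq, mul_assoc, ← this]
    group
  have a3 : p2⁻¹ * p0 = q1 * q0⁻¹ := by
    have : p2 * q1 = p0 * q0 := e21.trans e00.symm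
    rw [eq_mul_inv_iff_mul_eq, mul_assoc, ← this]
    group
  refine ⟨q1 * q0⁻¹, ?_, ?_⟩
  · have : (q1 * q0⁻¹) ^ 3 = (p0⁻¹ * p1) * (p1⁻¹ * p2) * (p2⁻¹ * p0) := by
      rw [a1, a2, a3, pow_succ, pow_two]
    rw [this]
    group
  · intro hu
    rw [hu] at a1
    have : p1 = p0 := by
      rw [inv_mul_eq_one] at a1
      exact a1.symm
    exact hx (hf this.symm)

/-- The group of homeomorphisms of the interval has no element of order three. -/
theorem eq_one_of_pow_three (u : unitInterval ≃ₜ unitInterval) (hu : u ^ 3 = 1) : u = 1 := by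
  have h3 : ∀ x, u (u (u x)) = x := by
    intro x
    have : (u ^ 3) x = x := by rw [hu]; rfl
    exact this
  rcases u.continuous.strictMono_of_inj_boundedOrder' u.injective with hm | hm
  · ext1 x
    change u x = x
    rcases lt_trichotomy (u x) x with h | h | h
    · have h1 := hm h
      have h2 := hm h1
      rw [h3] at h2
      exact absurd (h2.trans (h1.trans h)) (lt_irrefl _)
    · exact h
    · have h1 := hm h
      have h2 := hm h1
      rw [h3] at h2
      exact absurd (h.trans (h1.trans h2)) (lt_irrefl _)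
  · exfalso
    have h01 : (0 : unitInterval) < 1 := zero_lt_one
    have := hm (hm (hm h01))
    rw [h3, h3] at this
    exact absurd (this.trans h01) (lt_irrefl _)

/-- The fractional linear map `x ↦ c x / (1 + (c - 1) x)` of the interval. -/
theorem frac_mem {c : ℝ} (hc : 0 < c) {x : ℝ} (hx : x ∈ Icc (0 : ℝ) 1) :
    0 < 1 + (c - 1) * x ∧ c * x / (1 + (c - 1) * x) ∈ Icc (0 : ℝ) 1 := by
  obtain ⟨h0, h1⟩ := hx
  have hpos : 0 < 1 + (c - 1) * x := by
    rcases h0.eq_or_lt with h | h
    · rw [← h]; norm_num
    · nlinarith [mul_pos hc h]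
  refine ⟨hpos, div_nonneg (mul_nonneg hc.le h0) hpos.le, ?_⟩
  rw [div_le_one hpos]
  nlinarith

theorem frac_frac {c d x : ℝ} (hcd : d * c = 1) (h : 1 + (c - 1) * x ≠ 0) :
    d * (c * x / (1 + (c - 1) * x)) / (1 + (d - 1) * (c * x / (1 + (c - 1) * x))) = x := by
  have h2 : 1 + (d - 1) * (c * x / (1 + (c - 1) * x)) = 1 / (1 + (c - 1) * x) := by
    rw [eq_div_iff h, add_mul, mul_assoc, div_mul_cancel₀ _ h]
    linear_combination x * hcd
  rw [h2, div_div_eq_mul_div, div_one, mul_assoc, div_mul_cancel₀ _ h]
  linear_combination x * hcd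

/-- The fractional linear homeomorphism of the interval. -/
noncomputable def frac (c : ℝ) (hc : 0 < c) : unitInterval ≃ₜ unitInterval where
  toFun x := ⟨c * x / (1 + (c - 1) * x), (frac_mem hc x.2).2⟩
  invFun x := ⟨c⁻¹ * x / (1 + (c⁻¹ - 1) * x), (frac_mem (inv_pos.2 hc) x.2).2⟩
  left_inv x := Subtype.ext (frac_frac (inv_mul_cancel₀ hc.ne') (frac_mem hc x.2).1.ne')
  right_inv x := Subtype.ext (frac_frac (mul_inv_cancel₀ hc.ne') (frac_mem (inv_pos.2 hc) x.2).1.ne')
  continuous_toFun := by
    refine Continuous.subtype_mk (Continuous.div (by fun_prop) (by fun_prop) fun x => ?_) _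
    exact (frac_mem hc x.2).1.ne'
  continuous_invFun := by
    refine Continuous.subtype_mk (Continuous.div (by fun_prop) (by fun_prop) fun x => ?_) _
    exact (frac_mem (inv_pos.2 hc) x.2).1.ne'

open Cardinal in
/-- Both groups have the cardinality of the continuum, so that their underlying sets can be
identified. -/
theorem nonempty_equiv : Nonempty (Equiv.Perm ℤ ≃ (unitInterval ≃ₜ unitInterval)) := by
  have h1 : Cardinal.mk (Equiv.Perm ℤ) = 𝔠 := by
    rw [Cardinal.mk_perm_eq_two_power, Cardinal.mk_int, Cardinal.two_power_aleph0]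
  have hI : Cardinal.mk unitInterval = 𝔠 := Cardinal.mk_Icc_real zero_lt_one
  have h2 : Cardinal.mk (unitInterval ≃ₜ unitInterval) = 𝔠 := by
    apply le_antisymm
    · have hinj : Function.Injective (fun (h : unitInterval ≃ₜ unitInterval) (n : ℕ) =>
          h (TopologicalSpace.denseSeq unitInterval n)) := by
        intro g h hgh
        ext1 x
        have : (g : unitInterval → unitInterval) = h := by
          refine (TopologicalSpace.denseRange_denseSeq unitInterval).equalizer
            g.continuous h.continuous ?_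
          funext n
          exact congrFun hgh n
        exact congrFun this x
      refine (Cardinal.mk_le_of_injective hinj).trans ?_
      rw [← Cardinal.power_def, hI, Cardinal.mk_nat, Cardinal.continuum_power_aleph0]
    · rw [← Cardinal.mk_real]
      have hinj : Function.Injective (fun a : ℝ => frac (Real.exp a) (Real.exp_pos a)) := by
        intro a b hab
        have h3 : ((frac (Real.exp a) (Real.exp_pos a)) ⟨1 / 2, by norm_num, by norm_num⟩ : ℝ) =
            (frac (Real.exp b) (Real.exp_pos b)) ⟨1 / 2, by norm_num, by norm_num⟩ := by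
          have hab' : frac (Real.exp a) (Real.exp_pos a) = frac (Real.exp b) (Real.exp_pos b) := hab
          rw [hab']
        have h4 : Real.exp a * (1 / 2) / (1 + (Real.exp a - 1) * (1 / 2)) =
            Real.exp b * (1 / 2) / (1 + (Real.exp b - 1) * (1 / 2)) := h3
        have h5 := Real.exp_pos a
        have h6 := Real.exp_pos b
        rw [div_eq_div_iff (by nlinarith) (by nlinarith)] at h4
        apply Real.exp_injective
        nlinarith
      exact Cardinal.mk_le_of_injective hinj
  exact Cardinal.eq.1 (h1.trans h2.symm)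

/-- The underlying sets of the group of all permutations of the integers and of the group of all
homeomorphisms of `[0, 1]` can be identified, and under every identification of both with a set `E`
the two groups are not isomorphic under decomposition. -/
theorem result : Nonempty (Equiv.Perm ℤ ≃ (unitInterval ≃ₜ unitInterval)) ∧
    ∀ (E : Type) (φ : E ≃ Equiv.Perm ℤ) (ψ : E ≃ (unitInterval ≃ₜ unitInterval)),
      ¬ ProdIsoDecomp (Rep φ) (Rep ψ) := by
  refine ⟨nonempty_equiv, ?_⟩
  classical
  rintro E φ ψ ⟨m, -, P, Q, -, -, hP, hQ, hiso⟩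
  have hcol : ∀ x y : Equiv.Perm ℤ, ∃ i, (φ.symm x, φ.symm y, φ.symm (x * y)) ∈ P i := by
    intro x y
    have : (φ.symm x, φ.symm y, φ.symm (x * y)) ∈ ⋃ i, P i := by
      rw [hP]
      simp [Rep]
    simpa using this
  choose c hc using hcol
  obtain ⟨x, y, z, k, hxyz, hx, hk⟩ := exists_mono m c
  obtain ⟨f, hf⟩ := hiso k
  obtain ⟨u, hu, hu1⟩ := exists_order_three (fun g => ψ (f (φ.symm g)))
    (fun a b h => φ.symm.injective (f.injective (ψ.injective h))) x y z hx (by
      intro s t
      have h1 := hc (x s) (y t)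
      rw [hk, hxyz] at h1
      have h2 : (f (φ.symm (x s)), f (φ.symm (y t)), f (φ.symm (z (s + t)))) ∈ Q k := by
        rw [← hf]
        exact ⟨_, h1, rfl⟩
      have h3 : (f (φ.symm (x s)), f (φ.symm (y t)), f (φ.symm (z (s + t)))) ∈ Rep ψ := by
        rw [← hQ]
        exact mem_iUnion.2 ⟨k, h2⟩
      exact h3)
  exact hu1 (eq_one_of_pow_three u hu)

end Pool.Agent.Results.MP_0a04b1_lc.NotIsoDecomp
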